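import Pool.Agent.H72.GP.Targets
import Pool.Agent.H95.PSV.SCH

/-! VAL: the values of the forms are small. -/

set_option autoImplicit false

open Polynomial Finset
open Pool.Agent.H72.GP
open Pool.Agent.H85.PS (II MM Vec Sup Deg Jf Typ Maj Tay)

namespace Pool.Agent.H36.GPO

theorem lamG_zero (κ : Bool) (x y : ℚ) : lamG κ x y 0 = lgG κ x y := by
  unfold lamG qn
  simp

theorem FF_zero (κ : Bool) (x y : ℚ) : FF κ x y 0 = 0 := by
  unfold FF
  cases κ <;> simp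

theorem pf_VAL (hGID : T_GID) (hVAN : T_VAN) (hTAL : T_TAL) (hRRB : T_RRB) (hVFF : T_VFF) :
    T_VAL := by
  intro s D
  refine ⟨max 8 (2 * MM s D), le_trans (by norm_num) (le_max_left _ _), ?_⟩
  set c : ℕ := max 8 (2 * MM s D) with hc
  intro m N B T κ x y A a hB hBN hb hDeg ha hcoef hX i
  have hN : 0 < N := by omega
  have hNr : (0 : ℝ) < N := by exact_mod_cast hN
  have hBr : (0 : ℝ) < B := by exact_mod_cast hB
  have hBNr : 8 * (B : ℝ) < N := by exact_mod_cast hBN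
  have hNq : (0 : ℚ) < N := by exact_mod_cast hN
  have hBNq : 8 * (B : ℚ) < N := by exact_mod_cast hBN
  have hBq : (0 : ℚ) < B := by exact_mod_cast hB
  have hxq : ∀ k, |((x k : ℤ) : ℚ)| ≤ B := fun k => by exact_mod_cast (hb k).1
  have hyq : ∀ k, |((y k : ℤ) : ℚ)| ≤ B := fun k => by exact_mod_cast (hb k).2
  have hcond : ∀ k, (|((x k : ℤ) : ℚ)| + |((y k : ℤ) : ℚ)|) * |(1 / N : ℚ)| < 1 := by
    intro k
    rw [abs_of_pos (by positivity : (0 : ℚ) < 1 / N), mul_one_div, div_lt_one hNq]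
    linarith [hxq k, hyq k]
  have hT1 := fun k => hTAL (κ k) (x k) (y k) (1 / N) (hcond k)
  have hid := hGID s D (fun k => FF (κ k) (x k) (y k)) (1 / N)
    (fun k => lamG (κ k) (x k) (y k) (1 / N)) A (fun k => (hT1 k).1) (fun k => (hT1 k).2) i
  have hv := hVFF s N B κ x y hB hBN hb
  have hT0 : ∀ k, AnalyticAt ℂ (FF (κ k) (x k) (y k)) 0 ∧
      Tay 0 (FF (κ k) (x k) (y k)) =
        PowerSeries.map (algebraMap ℚ ℂ) (lgG (κ k) (x k) (y k)) := by
    intro k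
    have h := hTAL (κ k) (x k) (y k) 0 (by simp)
    rw [lamG_zero, Rat.cast_zero, FF_zero, map_zero, zero_add] at h
    exact h
  have hvan := hVAN s D T (fun k => FF (κ k) (x k) (y k))
    (fun k => lgG (κ k) (x k) (y k)) A (fun k => (hT0 k).1) (fun k => (hT0 k).2) hX
  obtain ⟨hdiff, hbd⟩ := hRRB s D m B κ x y A a hB hb hDeg ha hcoef
  have e0 : ∑ e ∈ II s D, (Gc (fun k => lamG (κ k) (x k) (y k) (1 / N)) (1 / N) D A i e : ℂ) *
      ∏ k, ((vG κ x y N k : ℝ) : ℂ) ^ e k =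
      iteratedDeriv i (RR (fun k => FF (κ k) (x k) (y k)) D A) ((1 / N : ℚ) : ℂ) /
        (i.factorial : ℂ) := by
    rw [← hid]
    refine Finset.sum_congr rfl fun e _ => ?_
    congr 1
    refine Finset.prod_congr rfl fun k _ => ?_
    rw [hv k]
  rw [e0]
  have hz : 2 * (1 / (N : ℝ)) < 1 / (4 * B) := by
    rw [lt_div_iff₀ (by positivity)]
    calc 2 * (1 / (N : ℝ)) * (4 * B) = 8 * B / N := by ring
      _ < 1 := (div_lt_one hNr).2 hBNr
  have hs := Pool.Agent.H95.PSV.pf_SCH (RR (fun k => FF (κ k) (x k) (y k)) D A) (1 / (4 * B))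
    (MM s D * ((m + 1) * a)) (1 / N) T i
    (by positivity) (by positivity) hz hdiff hbd hvan
  have hcast : ((1 / N : ℚ) : ℂ) = ((1 / (N : ℝ) : ℝ) : ℂ) := by push_cast; ring
  rw [hcast]
  refine hs.trans ?_
  have e1 : 2 * (1 / (N : ℝ)) / (1 / (4 * B)) = 8 * B / N := by
    field_simp
    ring
  have e2 : ∀ x : ℝ, x / (1 / (N : ℝ)) ^ i = x * N ^ i := by
    intro x
    rw [one_div, inv_pow, div_inv_eq_mul]
  rw [e1, e2]
  have hc4 : (8 : ℝ) ≤ c := by exact_mod_cast le_max_left 8 (2 * MM s D)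
  have hcM : MM s D * (m + 1) ≤ c ^ (m + 1) := by
    have h5 : 2 * MM s D ≤ c := le_max_right _ _
    have h6 : m + 1 ≤ 2 ^ (m + 1) := (Nat.lt_two_pow_self (n := m + 1)).le
    have h7 : MM s D ≤ MM s D ^ (m + 1) := Nat.le_self_pow (by omega) _
    calc MM s D * (m + 1) ≤ MM s D ^ (m + 1) * 2 ^ (m + 1) := Nat.mul_le_mul h7 h6
      _ = (2 * MM s D) ^ (m + 1) := by rw [mul_pow]; ring
      _ ≤ c ^ (m + 1) := Nat.pow_le_pow_left h5 _
  have hcM' : (MM s D : ℝ) * (m + 1) ≤ (c : ℝ) ^ (m + 1) := by exact_mod_cast hcM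
  have hT : (8 * (B : ℝ) / N) ^ T ≤ (c * B / N) ^ T := by
    refine pow_le_pow_left₀ (by positivity) ?_ T
    exact div_le_div_of_nonneg_right (mul_le_mul_of_nonneg_right hc4 hBr.le) hNr.le
  refine mul_le_mul_of_nonneg_right ?_ (by positivity)
  refine mul_le_mul ?_ hT (by positivity) (by positivity)
  calc (MM s D : ℝ) * ((m + 1) * a) = (MM s D : ℝ) * (m + 1) * a := by ring
    _ ≤ (c : ℝ) ^ (m + 1) * a := mul_le_mul_of_nonneg_right hcM' ha

end Pool.Agent.H36.GPO
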